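import Pool.Agent.helper24.CG.Spec

/-!
# Project cg (MP_ba8873_co), row GRD: Breaker's greedy move
-/

set_option autoImplicit false

namespace Pool.Agent.helper24.CG

open Finset

section GRD15

variable {α : Type} [Fintype α] [DecidableEq α]

/-- total weight of the sets disjoint from `Y` -/
noncomputable def GRDPhi (Ψ : Finset α → ℝ) (Y : Finset α) : ℝ :=
  ∑ S : Finset α, (if Disjoint S Y then Ψ S else 0)

/-- total weight of the sets disjoint from `Y` that contain `e` -/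
noncomputable def GRDPhe (Ψ : Finset α → ℝ) (Y : Finset α) (e : α) : ℝ :=
  ∑ S : Finset α, (if Disjoint S Y ∧ e ∈ S then Ψ S else 0)

lemma GRD_insert (Ψ : Finset α → ℝ) (Y : Finset α) (e : α) :
    GRDPhi Ψ (insert e Y) = GRDPhi Ψ Y - GRDPhe Ψ Y e := by
  unfold GRDPhi GRDPhe
  rw [← Finset.sum_sub_distrib]
  refine Finset.sum_congr rfl fun S _ => ?_
  simp only [Finset.disjoint_insert_right]
  by_cases h1 : Disjoint S Y
  · by_cases h2 : e ∈ S
    · simp [h1, h2]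
    · simp [h1, h2]
  · simp [h1]

lemma GRD_mono (Ψ : Finset α → ℝ) (hΨ : ∀ S, 0 ≤ Ψ S) (Y : Finset α) (f e : α) :
    GRDPhe Ψ (insert f Y) e ≤ GRDPhe Ψ Y e := by
  unfold GRDPhe
  refine Finset.sum_le_sum fun S _ => ?_
  simp only [Finset.disjoint_insert_right]
  by_cases h1 : Disjoint S Y
  · by_cases h2 : e ∈ S
    · by_cases h3 : f ∈ S
      · simp [h1, h2, h3, hΨ S]
      · simp [h1, h2, h3]
    · simp [h2]
  · simp [h1]

lemma GRD_nonneg (Ψ : Finset α → ℝ) (hΨ : ∀ S, 0 ≤ Ψ S) (Y : Finset α) (e : α) :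
    0 ≤ GRDPhe Ψ Y e := by
  unfold GRDPhe
  refine Finset.sum_nonneg fun S _ => ?_
  split_ifs
  · exact hΨ S
  · exact le_rfl

lemma GRD_ind (Ψ : Finset α → ℝ) (hΨ : ∀ S, 0 ≤ Ψ S) (free : Finset α) (j : ℕ) :
    ∃ Y, Y ⊆ free ∧ Y.card = min j free.card ∧ GRDPhi Ψ Y ≤ GRDPhi Ψ ∅ ∧
      ∀ e ∈ free \ Y, GRDPhi Ψ Y + j * GRDPhe Ψ Y e ≤ GRDPhi Ψ ∅ := by
  induction j with
  | zero =>
    refine ⟨∅, Finset.empty_subset _, by simp, le_rfl, fun e _ => ?_⟩
    simp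
  | succ j ih =>
    obtain ⟨Y, hYf, hYc, hY1, hY2⟩ := ih
    rcases (free \ Y).eq_empty_or_nonempty with h0 | h0
    · have hY : Y = free := Finset.Subset.antisymm hYf (Finset.sdiff_eq_empty_iff_subset.mp h0)
      refine ⟨Y, hYf, ?_, hY1, ?_⟩
      · rw [hY] at hYc ⊢
        omega
      · intro e he
        rw [h0] at he
        exact absurd he (Finset.notMem_empty e)
    · obtain ⟨f, hf, hmax⟩ := Finset.exists_max_image (free \ Y) (fun e => GRDPhe Ψ Y e) h0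
      obtain ⟨hff, hfY⟩ := Finset.mem_sdiff.mp hf
      have hlt : Y.card < free.card := Finset.card_lt_card
        ⟨hYf, fun h => hfY (h hff)⟩
      refine ⟨insert f Y, Finset.insert_subset hff hYf, ?_, ?_, ?_⟩
      · rw [Finset.card_insert_of_notMem hfY]
        omega
      · rw [GRD_insert]
        have := GRD_nonneg Ψ hΨ Y f
        linarith
      · intro e he
        obtain ⟨he1, he2⟩ := Finset.mem_sdiff.mp he
        have he3 : e ∈ free \ Y := Finset.mem_sdiff.mpr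
          ⟨he1, fun h => he2 (Finset.mem_insert_of_mem h)⟩
        have h1 := GRD_mono Ψ hΨ Y f e
        have h2 := hmax e he3
        have h3 := hY2 e he3
        rw [GRD_insert]
        push_cast
        have hj : (0 : ℝ) ≤ j := Nat.cast_nonneg j
        have h4 : (j : ℝ) * GRDPhe Ψ (insert f Y) e ≤ (j : ℝ) * GRDPhe Ψ Y e :=
          mul_le_mul_of_nonneg_left h1 hj
        have h5 : ((j : ℝ) + 1) * GRDPhe Ψ (insert f Y) e =
          (j : ℝ) * GRDPhe Ψ (insert f Y) e + GRDPhe Ψ (insert f Y) e := by ring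
        rw [h5]
        linarith

lemma GRD_sum (Ψ : Finset α → ℝ) (Y X : Finset α) (m b : ℕ) :
    ∑ S : Finset α, (if Disjoint S Y then
      Ψ S * (1 + (b : ℝ) * ((X ∩ S).card : ℝ) / (m : ℝ)) else 0) =
    GRDPhi Ψ Y + (b : ℝ) / m * ∑ e ∈ X, GRDPhe Ψ Y e := by
  have h1 : ∑ e ∈ X, GRDPhe Ψ Y e =
      ∑ S : Finset α, (if Disjoint S Y then Ψ S * ((X ∩ S).card : ℝ) else 0) := by
    unfold GRDPhe
    rw [Finset.sum_comm]
    refine Finset.sum_congr rfl fun S _ => ?_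
    by_cases h : Disjoint S Y
    · simp only [h, true_and, if_true]
      rw [← Finset.sum_filter, Finset.sum_const, nsmul_eq_mul, Finset.filter_mem_eq_inter]
      ring
    · simp [h]
  rw [h1, Finset.mul_sum]
  unfold GRDPhi
  rw [← Finset.sum_add_distrib]
  refine Finset.sum_congr rfl fun S _ => ?_
  by_cases h : Disjoint S Y
  · simp only [h, if_true]
    ring
  · simp [h]

end GRD15

theorem GRD : GRD_stmt := by
  intro α _ _ m b free Ψ hm hΨ
  obtain ⟨Y, hYf, hYc, hY1, hY2⟩ := GRD_ind Ψ hΨ free b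
  refine ⟨Y, ⟨hYf, hYc⟩, fun X hX hXm => ?_⟩
  rw [GRD_sum]
  have h0 : ∑ S, Ψ S = GRDPhi Ψ ∅ := by
    unfold GRDPhi
    refine Finset.sum_congr rfl fun S _ => ?_
    rw [if_pos (Finset.disjoint_empty_right S)]
  rw [h0]
  have hmpos : (0 : ℝ) < m := by exact_mod_cast hm
  have h1 : (b : ℝ) * ∑ e ∈ X, GRDPhe Ψ Y e ≤ X.card * (GRDPhi Ψ ∅ - GRDPhi Ψ Y) := by
    rw [Finset.mul_sum, ← nsmul_eq_mul, ← Finset.sum_const]
    refine Finset.sum_le_sum fun e he => ?_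
    have := hY2 e (hX he)
    linarith
  have h2 : (X.card : ℝ) * (GRDPhi Ψ ∅ - GRDPhi Ψ Y) ≤ m * (GRDPhi Ψ ∅ - GRDPhi Ψ Y) :=
    mul_le_mul_of_nonneg_right (by exact_mod_cast hXm) (by linarith)
  have h3 : (b : ℝ) / m * ∑ e ∈ X, GRDPhe Ψ Y e =
      ((b : ℝ) * ∑ e ∈ X, GRDPhe Ψ Y e) / m := by ring
  rw [h3]
  have h4 : ((b : ℝ) * ∑ e ∈ X, GRDPhe Ψ Y e) / m ≤ GRDPhi Ψ ∅ - GRDPhi Ψ Y := by
    rw [div_le_iff₀ hmpos]
    linarith
  linarith

end Pool.Agent.helper24.CG
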